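import Pool.Agent.Helper40.OL.Spec

/-! # OL, part IND: exactness of the complex of independent subsets of a path -/

set_option autoImplicit false

namespace Pool.Agent.Helper11.OL

open Pool.Agent.Helper40.OL

/-- the boundary -/
noncomputable abbrev B : (List ℕ →₀ ℤ) →ₗ[ℤ] (List ℕ →₀ ℤ) := Finsupp.linearCombination ℤ lb

/-- put `a` in front -/
noncomputable abbrev cn (a : ℕ) : (List ℕ →₀ ℤ) →ₗ[ℤ] (List ℕ →₀ ℤ) :=
  Finsupp.lmapDomain ℤ ℤ (fun L => a :: L)

lemma cons_inj (a : ℕ) : Function.Injective (fun L : List ℕ => a :: L) := fun _ _ h => by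
  simpa using h

/-- the part starting with `a` -/
noncomputable abbrev cm (a : ℕ) : (List ℕ →₀ ℤ) →ₗ[ℤ] (List ℕ →₀ ℤ) :=
  Finsupp.lcomapDomain (fun L : List ℕ => a :: L) (cons_inj a)

lemma cm_apply (a : ℕ) (z : List ℕ →₀ ℤ) (R : List ℕ) : cm a z R = z (a :: R) := rfl

lemma cn_apply (a : ℕ) (z : List ℕ →₀ ℤ) (R : List ℕ) : cn a z (a :: R) = z R := by
  simp only [cn, Finsupp.lmapDomain_apply]
  exact Finsupp.mapDomain_apply (cons_inj a) z R

lemma cn_apply_ne (a : ℕ) (z : List ℕ →₀ ℤ) (L : List ℕ) (h : ∀ R, L ≠ a :: R) : cn a z L = 0 := by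
  simp only [cn, Finsupp.lmapDomain_apply]
  apply Finsupp.mapDomain_of_notMem_range
  rintro ⟨R, rfl⟩
  exact h R rfl

lemma B_cn (a : ℕ) (z : List ℕ →₀ ℤ) : B (cn a z) = z - cn a (B z) := by
  induction z using Finsupp.induction_linear with
  | zero => simp
  | add f g hf hg => simp only [map_add, hf, hg]; abel
  | single L n =>
    simp only [cn, Finsupp.lmapDomain_apply, Finsupp.mapDomain_single, B,
      Finsupp.linearCombination_single, lb, smul_sub, Finsupp.smul_single, smul_eq_mul, mul_one,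
      Finsupp.mapDomain_smul]

/-- supports of linear combinations -/
lemma lc_mem {X Z : Type} {S : Set X} {T : Set Z} (f : X → (Z →₀ ℤ)) (hf : ∀ x ∈ S, f x ∈ Sup T)
    {z : X →₀ ℤ} (hz : z ∈ Sup S) : Finsupp.linearCombination ℤ f z ∈ Sup T := by
  rw [Finsupp.linearCombination_apply]
  refine Submodule.sum_mem _ fun x hx => Submodule.smul_mem _ _ (hf x ?_)
  exact (Finsupp.mem_supported ℤ z).1 hz hx

lemma mapDomain_mem {X Z : Type} {S : Set X} {T : Set Z} (f : X → Z) (hf : ∀ x ∈ S, f x ∈ T)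
    {z : X →₀ ℤ} (hz : z ∈ Sup S) : Finsupp.mapDomain f z ∈ Sup T := by
  classical
  rw [Finsupp.mem_supported]
  intro y hy
  have := Finsupp.mapDomain_support hy
  rw [Finset.mem_image] at this
  obtain ⟨x, hx, rfl⟩ := this
  exact hf x ((Finsupp.mem_supported ℤ z).1 hz hx)

lemma Sup_mono {X : Type} {S T : Set X} (h : S ⊆ T) {z : X →₀ ℤ} (hz : z ∈ Sup S) : z ∈ Sup T :=
  Finsupp.supported_mono h hz

lemma eq_zero_of_not_mem {X : Type} {S : Set X} {z : X →₀ ℤ} (hz : z ∈ Sup S) {x : X} (hx : x ∉ S) :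
    z x = 0 := by
  by_contra h
  exact hx ((Finsupp.mem_supported ℤ z).1 hz (Finsupp.mem_support_iff.2 h))

lemma mem_Sup_of {X : Type} {S : Set X} {z : X →₀ ℤ} (h : ∀ x, z x ≠ 0 → x ∈ S) : z ∈ Sup S := by
  rw [Finsupp.mem_supported]
  intro x hx
  exact h x (Finsupp.mem_support_iff.1 hx)

/-- `lb L` is supported on the sublists of length one less. -/
lemma lb_mem (L : List ℕ) : lb L ∈ Sup {L' : List ℕ | L'.Sublist L ∧ L'.length + 1 = L.length} := by
  induction L with
  | nil => simp [lb]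
  | cons r R ih =>
    rw [lb]
    refine Submodule.sub_mem _ ?_ ?_
    · refine mem_Sup_of fun x hx => ?_
      have : x = R := by
        by_contra h
        exact hx (by rw [Finsupp.single_apply, if_neg (Ne.symm h)])
      subst this
      exact ⟨List.sublist_cons_self _ _, by simp⟩
    · refine mapDomain_mem (fun L => r :: L) (fun x hx => ?_) ih
      exact ⟨hx.1.cons_cons r, by simpa using hx.2⟩

lemma B_mem {S T : Set (List ℕ)} (h : ∀ L ∈ S, ∀ L' : List ℕ, L'.Sublist L → L'.length + 1 = L.length →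
    L' ∈ T) {z : List ℕ →₀ ℤ} (hz : z ∈ Sup S) : B z ∈ Sup T := by
  refine lc_mem lb (fun L hL => ?_) hz
  exact Sup_mono (fun L' hL' => h L hL L' hL'.1 hL'.2) (lb_mem L)

/-- lists with all entries at least `c` -/
abbrev Ge (c : ℕ) : Set (List ℕ) := {L | ∀ r ∈ L, c ≤ r}

lemma cm_eq_zero {a c : ℕ} (h : a < c) {z : List ℕ →₀ ℤ} (hz : z ∈ Sup (Ge c)) : cm a z = 0 := by
  ext R
  rw [cm_apply, Finsupp.coe_zero, Pi.zero_apply]
  refine eq_zero_of_not_mem hz fun h' => ?_
  have := h' a (by simp)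
  omega

lemma B_Ge {c : ℕ} {z : List ℕ →₀ ℤ} (hz : z ∈ Sup (Ge c)) : B z ∈ Sup (Ge c) :=
  B_mem (S := Ge c) (T := Ge c) (fun _ hL _ hs _ r hr => hL r (hs.subset hr)) hz

lemma cm_cn (a : ℕ) (z : List ℕ →₀ ℤ) : cm a (cn a z) = z := by
  ext R
  rw [cm_apply, cn_apply]

lemma cm_cn_ne {a b : ℕ} (h : a ≠ b) (z : List ℕ →₀ ℤ) : cm a (cn b z) = 0 := by
  ext R
  rw [cm_apply, cn_apply_ne]
  · rfl
  · intro R' h'
    simp at h'
    exact h h'.1

theorem ind_thm : S_IND := by
  intro W
  induction hn : W.card using Nat.strong_induction_on generalizing W with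
  | _ n IH =>
  intro k hk j hj z hz hBz
  change B z = 0 at hBz
  have hWne : W.Nonempty := Finset.card_pos.1 (by omega)
  obtain ⟨a, haW, hamin⟩ : ∃ a ∈ W, ∀ x ∈ W, a ≤ x := ⟨W.min' hWne, W.min'_mem hWne, fun x hx => W.min'_le x hx⟩
  rcases Nat.eq_zero_or_pos j with rfl | hj0
  · -- degree zero
    refine ⟨cn a z, ?_, ?_⟩
    · refine mapDomain_mem _ (fun L hL => ?_) hz
      obtain ⟨h1, h2, h3⟩ := hL
      have : L = [] := List.length_eq_zero_iff.1 h3
      subst this
      exact ⟨by simp, by simpa using haW, by simp⟩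
    · change B (cn a z) = z
      rw [B_cn, hBz]; simp
  -- decomposition
  obtain ⟨z1, hz1⟩ : ∃ z1, z1 = cm a z := ⟨_, rfl⟩
  obtain ⟨z2, hz2⟩ : ∃ z2, z2 = cm (a + 1) z := ⟨_, rfl⟩
  obtain ⟨z0, hz0⟩ : ∃ z0, z0 = z - cn a z1 - cn (a + 1) z2 := ⟨_, rfl⟩
  have hz0s : z0 ∈ Sup {L | L ∈ Ind W j ∧ L ∈ Ge (a + 2)} := by
    refine mem_Sup_of fun L hL => ?_
    rcases L with _ | ⟨c, R⟩
    · have e : z0 [] = z [] := by
        rw [hz0]
        simp only [Finsupp.coe_sub, Pi.sub_apply]
        rw [cn_apply_ne _ _ _ (fun R h => by simp at h), cn_apply_ne _ _ _ (fun R h => by simp at h)]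
        ring
      rw [e] at hL
      have := (Finsupp.mem_supported ℤ z).1 hz (Finsupp.mem_support_iff.2 hL)
      exact ⟨this, by intro r hr; simp at hr⟩
    · by_cases hca : c = a
      · subst hca
        exfalso; apply hL
        rw [hz0]
        simp only [Finsupp.coe_sub, Pi.sub_apply]
        rw [cn_apply, cn_apply_ne _ _ _ (fun R h => by simp at h), hz1, cm_apply]
        ring
      by_cases hcb : c = a + 1
      · subst hcb
        exfalso; apply hL
        rw [hz0]
        simp only [Finsupp.coe_sub, Pi.sub_apply]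
        rw [cn_apply, cn_apply_ne _ _ _ (fun R h => by simp at h), hz2, cm_apply]
        ring
      have e : z0 (c :: R) = z (c :: R) := by
        rw [hz0]
        simp only [Finsupp.coe_sub, Pi.sub_apply]
        rw [cn_apply_ne _ _ _ (fun R h => by simp at h; exact hca h.1),
          cn_apply_ne _ _ _ (fun R h => by simp at h; exact hcb h.1)]
        ring
      rw [e] at hL
      have hI := (Finsupp.mem_supported ℤ z).1 hz (Finsupp.mem_support_iff.2 hL)
      refine ⟨hI, ?_⟩
      have hcW : c ∈ W := hI.2.1 c (by simp)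
      have h2 := hamin c hcW
      intro r hr
      rcases List.mem_cons.1 hr with rfl | hr
      · omega
      · have := (List.pairwise_cons.1 hI.1).1 r hr
        omega
  have hzdec : z = z0 + cn a z1 + cn (a + 1) z2 := by rw [hz0]; abel
  -- supports of z1, z2
  have hz1s : z1 ∈ Sup {L | L ∈ Ind (W.filter (fun x => a + 2 ≤ x)) (j - 1)} := by
    refine mem_Sup_of fun L hL => ?_
    rw [hz1, cm_apply] at hL
    have hI := (Finsupp.mem_supported ℤ z).1 hz (Finsupp.mem_support_iff.2 hL)
    have hp := List.pairwise_cons.1 hI.1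
    refine ⟨hp.2, fun r hr => Finset.mem_filter.2 ⟨hI.2.1 r (by simp [hr]), hp.1 r hr⟩, ?_⟩
    have := hI.2.2
    simp at this; omega
  have hz2s : z2 ∈ Sup {L | L ∈ Ind (W.filter (fun x => a + 3 ≤ x)) (j - 1)} := by
    refine mem_Sup_of fun L hL => ?_
    rw [hz2, cm_apply] at hL
    have hI := (Finsupp.mem_supported ℤ z).1 hz (Finsupp.mem_support_iff.2 hL)
    have hp := List.pairwise_cons.1 hI.1
    refine ⟨hp.2, fun r hr => Finset.mem_filter.2 ⟨hI.2.1 r (by simp [hr]), hp.1 r hr⟩, ?_⟩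
    have := hI.2.2
    simp at this; omega
  have hz0g : z0 ∈ Sup (Ge (a + 2)) := Sup_mono (fun L hL => hL.2) hz0s
  have hz1g : z1 ∈ Sup (Ge (a + 2)) := by
    refine Sup_mono (fun L hL => ?_) hz1s
    intro r hr
    exact (Finset.mem_filter.1 (hL.2.1 r hr)).2
  have hz2g : z2 ∈ Sup (Ge (a + 2)) := by
    refine Sup_mono (fun L hL => ?_) hz2s
    intro r hr
    have := (Finset.mem_filter.1 (hL.2.1 r hr)).2
    omega
  -- the cycle condition
  have hB : B z0 + z1 - cn a (B z1) + (z2 - cn (a + 1) (B z2)) = 0 := by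
    have := hBz
    rw [hzdec, map_add, map_add, B_cn, B_cn] at this
    rw [← this]; abel
  have hB1 : B z1 = 0 := by
    have := congrArg (cm a) hB
    rw [map_add, map_sub, map_sub, map_add, cm_cn, cm_cn_ne (by omega), cm_eq_zero (by omega) (B_Ge hz0g),
      cm_eq_zero (by omega) hz1g, cm_eq_zero (by omega) hz2g, map_zero] at this
    simpa using this
  have hB2 : B z2 = 0 := by
    have := congrArg (cm (a + 1)) hB
    rw [map_add, map_sub, map_sub, map_add, cm_cn, cm_cn_ne (by omega), cm_eq_zero (by omega) (B_Ge hz0g),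
      cm_eq_zero (by omega) hz1g, cm_eq_zero (by omega) hz2g, map_zero] at this
    simpa using this
  have hB0 : B z0 = - z1 - z2 := by
    rw [hB1, hB2, map_zero, map_zero] at hB
    have : B z0 = (B z0 + z1 - 0 + (z2 - 0)) - z1 - z2 := by abel
    rw [this, hB]; abel
  have hw0 : cn a z0 ∈ Sup (Ind W (j + 1)) := by
    refine mapDomain_mem _ (fun L hL => ?_) hz0s
    refine ⟨List.pairwise_cons.2 ⟨fun r hr => hL.2 r hr, hL.1.1⟩, ?_, by simp [hL.1.2.2]⟩
    intro r hr
    rcases List.mem_cons.1 hr with rfl | hr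
    · exact haW
    · exact hL.1.2.1 r hr
  by_cases hb : a + 1 ∈ W
  · -- second case
    have hcard : 3 * (k - 1) + 1 ≤ (W.filter (fun x => a + 3 ≤ x)).card := by
      have h1 : W ⊆ (W.filter (fun x => a + 3 ≤ x)) ∪ {a, a + 1, a + 2} := by
        intro x hx
        have := hamin x hx
        simp only [Finset.mem_union, Finset.mem_filter, Finset.mem_insert, Finset.mem_singleton]
        by_cases h : a + 3 ≤ x
        · exact Or.inl ⟨hx, h⟩
        · right; omega
      have h2 := Finset.card_le_card h1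
      have h3 := Finset.card_union_le (W.filter (fun x => a + 3 ≤ x)) {a, a + 1, a + 2}
      have h4 : ({a, a + 1, a + 2} : Finset ℕ).card ≤ 3 := Finset.card_le_three
      omega
    have hlt : (W.filter (fun x => a + 3 ≤ x)).card < n := by
      rw [← hn]
      apply Finset.card_lt_card
      refine ⟨Finset.filter_subset _ _, fun h => ?_⟩
      have := (Finset.mem_filter.1 (h haW)).2
      omega
    obtain ⟨e, he, hBe⟩ := IH _ hlt _ rfl (k - 1) hcard (j - 1) (by omega) z2 hz2s hB2
    change B e = z2 at hBe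
    have he' : e ∈ Sup (Ind (W.filter (fun x => a + 3 ≤ x)) j) := by
      have : j - 1 + 1 = j := by omega
      rwa [this] at he
    refine ⟨cn a z0 + cn a e - cn (a + 1) e, ?_, ?_⟩
    · refine Submodule.sub_mem _ (Submodule.add_mem _ hw0 ?_) ?_
      · refine mapDomain_mem _ (fun L hL => ?_) he'
        refine ⟨List.pairwise_cons.2 ⟨fun r hr => ?_, hL.1⟩, ?_, by simp [hL.2.2]⟩
        · have := (Finset.mem_filter.1 (hL.2.1 r hr)).2; omega
        · intro r hr
          rcases List.mem_cons.1 hr with rfl | hr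
          · exact haW
          · exact (Finset.mem_filter.1 (hL.2.1 r hr)).1
      · refine mapDomain_mem _ (fun L hL => ?_) he'
        refine ⟨List.pairwise_cons.2 ⟨fun r hr => ?_, hL.1⟩, ?_, by simp [hL.2.2]⟩
        · have := (Finset.mem_filter.1 (hL.2.1 r hr)).2; omega
        · intro r hr
          rcases List.mem_cons.1 hr with rfl | hr
          · exact hb
          · exact (Finset.mem_filter.1 (hL.2.1 r hr)).1
    · change B (cn a z0 + cn a e - cn (a + 1) e) = z
      rw [map_sub, map_add, B_cn, B_cn, B_cn, hB0, hBe]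
      conv_rhs => rw [hzdec]
      rw [map_sub, map_neg]; abel
  · -- first case: z2 = 0
    have hz20 : z2 = 0 := by
      ext L
      rw [hz2, cm_apply, Finsupp.coe_zero, Pi.zero_apply]
      refine eq_zero_of_not_mem hz fun h => hb (h.2.1 _ (by simp))
    refine ⟨cn a z0, hw0, ?_⟩
    change B (cn a z0) = z
    rw [B_cn, hB0, hz20]
    conv_rhs => rw [hzdec, hz20]
    rw [map_sub, map_neg, map_zero]; abel

end Pool.Agent.Helper11.OL
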