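import Pool.Agent.Helper40.OL.Spec
import Pool.Agent.Helper11.OL.IND

/-! # OL, part LAB: exactness of the complex with labels -/

set_option autoImplicit false

namespace Pool.Agent.Helper11.OL

open Pool.Agent.Helper40.OL

/-- labelled lists -/
abbrev LX : Type := List ℕ × (ℕ × ℕ → ℤ)

/-- the boundary with labels -/
noncomputable abbrev BL : (LX →₀ ℤ) →ₗ[ℤ] (LX →₀ ℤ) := Finsupp.linearCombination ℤ lbL

/-- put the label `l` -/
noncomputable abbrev JL (l : ℕ × ℕ → ℤ) : (List ℕ →₀ ℤ) →ₗ[ℤ] (LX →₀ ℤ) :=
  Finsupp.lmapDomain ℤ ℤ (fun R' => (R', res R' l))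

lemma mapDomain_congr' {A C : Type} {S : Set A} {f g : A → C} {z : A →₀ ℤ} (hz : z ∈ Sup S)
    (h : ∀ x ∈ S, f x = g x) : Finsupp.mapDomain f z = Finsupp.mapDomain g z :=
  Finsupp.mapDomain_congr (fun x hx => h x ((Finsupp.mem_supported ℤ z).1 hz hx))

lemma B_single (L : List ℕ) (n : ℤ) : B (Finsupp.single L n) = n • lb L := by
  simp only [B, Finsupp.linearCombination_single]

lemma BL_single (c : LX) (n : ℤ) : BL (Finsupp.single c n) = n • lbL c := by
  simp only [BL, Finsupp.linearCombination_single]

lemma B_lb (L : List ℕ) : B (lb L) = 0 := by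
  induction L with
  | nil => simp [lb]
  | cons r R ih =>
    have e : lb (r :: R) = Finsupp.single R 1 - cn r (lb R) := rfl
    rw [e, map_sub, B_cn, ih, B_single]
    simp

lemma res_res {R' R : List ℕ} (h : R'.Sublist R) (l : ℕ × ℕ → ℤ) : res R' (res R l) = res R' l := by
  funext u
  simp only [res]
  by_cases h1 : u.1 ∈ R' ∨ u.2 ∈ R'
  · rw [if_pos h1, if_pos h1, if_pos]
    rcases h1 with h1 | h1
    · exact Or.inl (h.subset h1)
    · exact Or.inr (h.subset h1)
  · rw [if_neg h1, if_neg h1]

lemma lbL_eq (c : LX) : lbL c = JL c.2 (lb c.1) := rfl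

lemma BL_JL (l : ℕ × ℕ → ℤ) (x : List ℕ →₀ ℤ) : BL (JL l x) = JL l (B x) := by
  induction x using Finsupp.induction_linear with
  | zero => simp
  | add f g hf hg => simp only [map_add, hf, hg]
  | single R n =>
    have e : JL l (Finsupp.single R n) = Finsupp.single (R, res R l) n := by
      simp only [JL, Finsupp.lmapDomain_apply, Finsupp.mapDomain_single]
    rw [e, BL_single, B_single, map_smul, lbL_eq]
    congr 1
    simp only [JL, Finsupp.lmapDomain_apply]
    refine mapDomain_congr' (lb_mem R) fun x hx => ?_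
    rw [res_res hx.1]

lemma BL_BL (z : LX →₀ ℤ) : BL (BL z) = 0 := by
  induction z using Finsupp.induction_linear with
  | zero => simp
  | add f g hf hg => simp only [map_add, hf, hg, add_zero]
  | single c n =>
    rw [BL_single, map_smul, lbL_eq, BL_JL, B_lb, map_zero, smul_zero]

/-- put the label `n` at `y` -/
def iota (y : ℕ × ℕ) (n : ℤ) (c : LX) : LX :=
  (c.1, fun u => if u = y ∧ (y.1 ∈ c.1 ∨ y.2 ∈ c.1) then n else c.2 u)

lemma res_iota (y : ℕ × ℕ) (n : ℤ) {R' R : List ℕ} (h : R'.Sublist R) (l : ℕ × ℕ → ℤ) :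
    ((R', res R' (iota y n (R, l)).2) : LX) = iota y n (R', res R' l) := by
  refine Prod.ext rfl ?_
  funext u
  simp only [iota, res]
  by_cases hu : u = y
  · subst hu
    by_cases h1 : u.1 ∈ R' ∨ u.2 ∈ R'
    · have h2 : u.1 ∈ R ∨ u.2 ∈ R := by
        rcases h1 with h1 | h1
        · exact Or.inl (h.subset h1)
        · exact Or.inr (h.subset h1)
      simp [h1, h2]
    · simp [h1]
  · simp [hu]

/-- put the label `n` at `y` -/
noncomputable abbrev IL (y : ℕ × ℕ) (n : ℤ) : (LX →₀ ℤ) →ₗ[ℤ] (LX →₀ ℤ) :=
  Finsupp.lmapDomain ℤ ℤ (iota y n)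

lemma BL_IL (y : ℕ × ℕ) (n : ℤ) (z : LX →₀ ℤ) : BL (IL y n z) = IL y n (BL z) := by
  induction z using Finsupp.induction_linear with
  | zero => simp
  | add f g hf hg => simp only [map_add, hf, hg]
  | single c m =>
    obtain ⟨R, l⟩ := c
    have e : IL y n (Finsupp.single (R, l) m) = Finsupp.single (iota y n (R, l)) m := by
      simp only [IL, Finsupp.lmapDomain_apply, Finsupp.mapDomain_single]
    rw [e, BL_single, BL_single, map_smul]
    congr 1
    simp only [IL, Finsupp.lmapDomain_apply, lbL]
    rw [← Finsupp.mapDomain_comp]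
    refine mapDomain_congr' (lb_mem R) fun x hx => ?_
    exact res_iota y n hx.1 l

lemma BL_mem {S T : Set LX} (h : ∀ c ∈ S, ∀ L' : List ℕ, L'.Sublist c.1 → L'.length + 1 = c.1.length →
    ((L', res L' c.2) : LX) ∈ T) {z : LX →₀ ℤ} (hz : z ∈ Sup S) : BL z ∈ Sup T := by
  refine lc_mem lbL (fun c hc => ?_) hz
  exact mapDomain_mem _ (fun L' hL' => h c hc L' hL'.1 hL'.2) (lb_mem c.1)

lemma Ind_sub {W : Finset ℕ} {j : ℕ} {R R' : List ℕ} (hR : R ∈ Ind W (j + 1)) (h : R'.Sublist R)
    (hl : R'.length + 1 = R.length) : R' ∈ Ind W j :=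
  ⟨hR.1.sublist h, fun r hr => hR.2.1 r (h.subset hr), by have := hR.2.2; omega⟩

lemma IndL_sub {W : Finset ℕ} {T : Finset (ℕ × ℕ)} {j : ℕ} {c : LX} {R' : List ℕ}
    (hc : c ∈ IndL W T (j + 1)) (h : R'.Sublist c.1) (hl : R'.length + 1 = c.1.length) :
    ((R', res R' c.2) : LX) ∈ IndL W T j := by
  refine ⟨Ind_sub hc.1 h hl, fun y hy => ?_, res_res (List.Sublist.refl _) _⟩
  simp only [res, hc.2.1 y hy, ite_self]

lemma lab_base (h : S_IND) (W : Finset ℕ) (k : ℕ) (hk : 3 * k + 1 ≤ W.card) (j : ℕ) (hj : j ≤ k) :
    ExL W ∅ j := by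
  intro z hz hBz
  change BL z = 0 at hBz
  have e1 : ∀ c ∈ IndL W ∅ j, c = (c.1, res c.1 0) := by
    intro c hc
    refine Prod.ext rfl ?_
    funext y
    rw [hc.2.1 y (by simp)]
    simp [res]
  obtain ⟨z', hz'⟩ : ∃ z', z' = Finsupp.mapDomain Prod.fst z := ⟨_, rfl⟩
  have hz's : z' ∈ Sup (Ind W j) := by
    rw [hz']
    exact mapDomain_mem _ (fun c hc => hc.1) hz
  have hJ : JL 0 z' = z := by
    rw [hz']
    simp only [JL, Finsupp.lmapDomain_apply]
    rw [← Finsupp.mapDomain_comp]
    conv_rhs => rw [← Finsupp.mapDomain_id (v := z)]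
    refine mapDomain_congr' hz fun c hc => ?_
    exact (e1 c hc).symm
  have hinj : Function.Injective (JL 0) := by
    refine Finsupp.mapDomain_injective fun R R' hR => ?_
    exact (Prod.ext_iff.1 hR).1
  have hB : B z' = 0 := by
    apply hinj
    rw [← BL_JL, hJ, hBz, map_zero]
  obtain ⟨w', hw', hBw⟩ := h W k hk j hj z' hz's hB
  change B w' = z' at hBw
  refine ⟨JL 0 w', ?_, ?_⟩
  · refine mapDomain_mem _ (fun R hR => ?_) hw'
    exact ⟨hR, fun y _ => by simp [res], res_res (List.Sublist.refl _) _⟩
  · change BL (JL 0 w') = z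
    rw [BL_JL, hBw, hJ]

theorem lab_thm (h : S_IND) : S_LAB := by
  classical
  intro T
  induction T using Finset.induction_on with
  | empty => exact fun W k hk j hj => lab_base h W k hk j hj
  | insert y T hy IH =>
  intro W k hk j hj
  -- elimination of the labels at `y`
  have main : ∀ (N : Finset ℤ) (z : LX →₀ ℤ), z ∈ Sup (IndL W (insert y T) j) →
      (∀ c, z c ≠ 0 → c.2 y = 0 ∨ c.2 y ∈ N) → BL z = 0 →
      ∃ w ∈ Sup (IndL W (insert y T) (j + 1)), BL w = z := by
    intro N
    induction N using Finset.induction_on with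
    | empty =>
      intro z hz hN hBz
      have hz' : z ∈ Sup (IndL W T j) := by
        refine mem_Sup_of fun c hc => ?_
        have hcI := (Finsupp.mem_supported ℤ z).1 hz (Finsupp.mem_support_iff.2 hc)
        refine ⟨hcI.1, fun u hu => ?_, hcI.2.2⟩
        by_cases huy : u = y
        · subst huy
          rcases hN c hc with h0 | h0
          · exact h0
          · simp at h0
        · exact hcI.2.1 u (by simp [huy, hu])
      obtain ⟨w, hw, hBw⟩ := IH W k hk j hj z hz' hBz
      refine ⟨w, Sup_mono (fun c hc => ?_) hw, hBw⟩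
      exact ⟨hc.1, fun u hu => hc.2.1 u (fun h' => hu (by simp [h'])), hc.2.2⟩
    | insert n N _ IHN =>
      intro z hz hN hBz
      by_cases hn : n = 0
      · subst hn
        refine IHN z hz (fun c hc => ?_) hBz
        rcases hN c hc with h0 | h0
        · exact Or.inl h0
        · rcases Finset.mem_insert.1 h0 with h1 | h1
          · exact Or.inl h1
          · exact Or.inr h1
      -- degree zero
      rcases Nat.eq_zero_or_pos j with hj0 | hj0
      · refine IHN z hz (fun c hc => Or.inl ?_) hBz
        have hcI := (Finsupp.mem_supported ℤ z).1 hz (Finsupp.mem_support_iff.2 hc)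
        have h1 : c.1 = [] := List.length_eq_zero_iff.1 (hcI.1.2.2.trans hj0)
        rw [← hcI.2.2, h1]
        simp [res]
      obtain ⟨i, rfl⟩ : ∃ i, j = i + 1 := ⟨j - 1, by omega⟩
      -- the part with label `n`
      obtain ⟨zn, hzn⟩ : ∃ zn, zn = z.filter (fun c : LX => c.2 y = n) := ⟨_, rfl⟩
      obtain ⟨zr, hzr⟩ : ∃ zr, zr = z.filter (fun c : LX => ¬ c.2 y = n) := ⟨_, rfl⟩
      have hzsum : z = zn + zr := by
        rw [hzn, hzr]; exact (Finsupp.filter_pos_add_filter_neg z _).symm
      have hzns : zn ∈ Sup {c | c ∈ IndL W (insert y T) (i + 1) ∧ c.2 y = n} := by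
        refine mem_Sup_of fun c hc => ?_
        rw [hzn, Finsupp.filter_apply] at hc
        split_ifs at hc with h1
        · exact ⟨(Finsupp.mem_supported ℤ z).1 hz (Finsupp.mem_support_iff.2 hc), h1⟩
        · exact absurd rfl hc
      have hzrs : zr ∈ Sup {c | c ∈ IndL W (insert y T) (i + 1) ∧ c.2 y ≠ n ∧
          (c.2 y = 0 ∨ c.2 y ∈ N)} := by
        refine mem_Sup_of fun c hc => ?_
        rw [hzr, Finsupp.filter_apply] at hc
        by_cases h1 : c.2 y = n
        · exact absurd (if_neg (not_not.2 h1)) hc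
        · rw [if_pos h1] at hc
          refine ⟨(Finsupp.mem_supported ℤ z).1 hz (Finsupp.mem_support_iff.2 hc), h1, ?_⟩
          rcases hN c hc with h0 | h0
          · exact Or.inl h0
          · rcases Finset.mem_insert.1 h0 with h2 | h2
            · exact absurd h2 h1
            · exact Or.inr h2
      -- delete the label
      obtain ⟨cc, hcc⟩ : ∃ cc, cc = Finsupp.mapDomain
        (fun c : LX => ((c.1, Function.update c.2 y 0) : LX)) zn := ⟨_, rfl⟩
      have hccs : cc ∈ Sup (IndL W T (i + 1)) := by
        rw [hcc]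
        refine mapDomain_mem _ (fun c hc => ?_) hzns
        refine ⟨hc.1.1, fun u hu => ?_, ?_⟩
        · by_cases huy : u = y
          · subst huy; simp
          · simp only [Function.update_of_ne huy]
            exact hc.1.2.1 u (by simp [huy, hu])
        · funext u
          have h1 := congrFun hc.1.2.2 u
          simp only [res] at h1 ⊢
          by_cases huy : u = y
          · subst huy; simp
          · simp only [Function.update_of_ne huy]
            exact h1
      have hIcc : IL y n cc = zn := by
        rw [hcc]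
        simp only [IL, Finsupp.lmapDomain_apply]
        rw [← Finsupp.mapDomain_comp]
        conv_rhs => rw [← Finsupp.mapDomain_id (v := zn)]
        refine mapDomain_congr' hzns fun c hc => ?_
        simp only [Function.comp, iota, id]
        refine Prod.ext rfl ?_
        funext u
        have h1 := congrFun hc.1.2.2 u
        simp only [res] at h1
        by_cases huy : u = y
        · subst huy
          have h2 : u.1 ∈ c.1 ∨ u.2 ∈ c.1 := by
            by_contra h3
            rw [if_neg h3, hc.2] at h1
            exact hn h1.symm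
          simp [h2, hc.2]
        · simp [huy]
      -- the boundary of `cc` does not meet `y`
      have hBcc1 : BL cc ∈ Sup (IndL W T i) := BL_mem (fun c hc L' h1 h2 => IndL_sub hc h1 h2) hccs
      have hBzr : BL zr ∈ Sup {c : LX | c.2 y ≠ n} := by
        refine BL_mem (fun c hc L' _ _ => ?_) hzrs
        show res L' c.2 y ≠ n
        simp only [res]
        split_ifs
        · exact hc.2.1
        · exact fun h' => hn h'.symm
      have hsum0 : BL zr + IL y n (BL cc) = 0 := by
        rw [← BL_IL, hIcc, ← map_add, add_comm, ← hzsum, hBz]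
      have hBcc : BL cc ∈ Sup (IndL (W \ {y.1, y.2}) T i) := by
        refine mem_Sup_of fun c hc => ?_
        have hcI := (Finsupp.mem_supported ℤ _).1 hBcc1 (Finsupp.mem_support_iff.2 hc)
        have hnot : ¬ (y.1 ∈ c.1 ∨ y.2 ∈ c.1) := by
          intro hm
          have e1 : (IL y n (BL cc)) (iota y n c) = BL cc c := by
            simp only [IL, Finsupp.lmapDomain_apply]
            refine Finsupp.mapDomain_apply' (S := IndL W T i) (BL cc)
              ((Finsupp.mem_supported ℤ _).1 hBcc1) ?_ hcI
            intro c1 h1 c2 h2 h12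
            have h3 := Prod.ext_iff.1 h12
            simp only [iota] at h3
            refine Prod.ext h3.1 ?_
            funext u
            have h4 := congrFun h3.2 u
            by_cases huy : u = y
            · subst huy
              rw [h1.2.1 u hy, h2.2.1 u hy]
            · simpa [huy] using h4
          have e2 : (BL zr) (iota y n c) = 0 := by
            refine eq_zero_of_not_mem hBzr ?_
            simp [iota, hm]
          have e3 := DFunLike.congr_fun hsum0 (iota y n c)
          rw [Finsupp.add_apply, e1, e2] at e3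
          apply hc
          simpa using e3
        push Not at hnot
        refine ⟨⟨hcI.1.1, fun r hr => ?_, hcI.1.2.2⟩, hcI.2.1, hcI.2.2⟩
        rw [Finset.mem_sdiff]
        refine ⟨hcI.1.2.1 r hr, fun h1 => ?_⟩
        simp only [Finset.mem_insert, Finset.mem_singleton] at h1
        rcases h1 with h1 | h1
        · exact hnot.1 (h1 ▸ hr)
        · exact hnot.2 (h1 ▸ hr)
      have hcard : 3 * (k - 1) + 1 ≤ (W \ {y.1, y.2}).card := by
        have h1 := Finset.le_card_sdiff {y.1, y.2} W
        have h2 : ({y.1, y.2} : Finset ℕ).card ≤ 2 := Finset.card_le_two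
        omega
      obtain ⟨an, han, hBan⟩ := IH (W \ {y.1, y.2}) (k - 1) hcard i (by omega) (BL cc) hBcc (BL_BL cc)
      change BL an = BL cc at hBan
      have han' : an ∈ Sup (IndL W T (i + 1)) := by
        refine Sup_mono (fun c hc => ?_) han
        exact ⟨⟨hc.1.1, fun r hr => (Finset.mem_sdiff.1 (hc.1.2.1 r hr)).1, hc.1.2.2⟩, hc.2.1, hc.2.2⟩
      obtain ⟨en, hen, hBen⟩ := IH W k hk (i + 1) hj (cc - an) (Submodule.sub_mem _ hccs han')
        (by change BL (cc - an) = 0; rw [map_sub, hBan, sub_self])
      change BL en = cc - an at hBen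
      have hIan : IL y n an = an := by
        simp only [IL, Finsupp.lmapDomain_apply]
        conv_rhs => rw [← Finsupp.mapDomain_id (v := an)]
        refine mapDomain_congr' han fun c hc => ?_
        have h1 : ¬ (y.1 ∈ c.1 ∨ y.2 ∈ c.1) := by
          rintro (h1 | h1)
          · have := (Finset.mem_sdiff.1 (hc.1.2.1 _ h1)).2
            simp at this
          · have := (Finset.mem_sdiff.1 (hc.1.2.1 _ h1)).2
            simp at this
        simp [iota, h1]
      have hz2 : zr + an ∈ Sup (IndL W (insert y T) (i + 1)) := by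
        refine Submodule.add_mem _ (Sup_mono (fun c hc => hc.1) hzrs) (Sup_mono (fun c hc => ?_) han')
        exact ⟨hc.1, fun u hu => hc.2.1 u (fun h' => hu (by simp [h'])), hc.2.2⟩
      have hB2 : BL (IL y n en) = zn - an := by
        rw [BL_IL, hBen, map_sub, hIcc, hIan]
      have hlab : ∀ c, (zr + an) c ≠ 0 → c.2 y = 0 ∨ c.2 y ∈ N := by
        intro c hc
        by_cases h1 : zr c = 0
        · have h2 : an c ≠ 0 := by
            intro h2; apply hc; rw [Finsupp.add_apply, h1, h2, add_zero]
          have h3 := (Finsupp.mem_supported ℤ _).1 han' (Finsupp.mem_support_iff.2 h2)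
          exact Or.inl (h3.2.1 y hy)
        · exact ((Finsupp.mem_supported ℤ _).1 hzrs (Finsupp.mem_support_iff.2 h1)).2.2
      have hB0 : BL (zr + an) = 0 := by
        have : zr + an = z - BL (IL y n en) := by
          rw [hB2, hzsum]; abel
        rw [this, map_sub, BL_BL, hBz, sub_zero]
      obtain ⟨w, hw, hBw⟩ := IHN (zr + an) hz2 hlab hB0
      refine ⟨w + IL y n en, Submodule.add_mem _ hw ?_, ?_⟩
      · refine mapDomain_mem _ (fun c hc => ?_) hen
        refine ⟨hc.1, fun u hu => ?_, ?_⟩
        · have huy : u ≠ y := fun h' => hu (by simp [h'])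
          simp only [iota, huy, false_and, if_false]
          exact hc.2.1 u (fun h' => hu (by simp [h']))
        · funext u
          have h1 := congrFun hc.2.2 u
          simp only [res, iota] at h1 ⊢
          by_cases huy : u = y
          · subst huy
            by_cases hm : u.1 ∈ c.1 ∨ u.2 ∈ c.1
            · simp [hm]
            · simp [hm, hc.2.1 u hy]
          · simp only [huy, false_and, if_false]
            exact h1
      · rw [map_add, hBw, hB2, hzsum]; abel
  intro z hz hBz
  refine main (z.support.image (fun c => c.2 y)) z hz (fun c hc => Or.inr ?_) hBz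
  exact Finset.mem_image_of_mem _ (Finsupp.mem_support_iff.2 hc)

end Pool.Agent.Helper11.OL
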